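import Pool.Agent.Helper78.W3.StD

/-!
# Project W3 (MP_3c9520_nt), module Exp: expansion of a list of operators modulo lowering by 5
-/

set_option autoImplicit false

namespace Pool.Agent.Helper24.W3

open Pool.Agent.Helper14.CV (Homog EqC act Tl)
open Pool.Agent.Helper14.W3
open Pool.Agent.Helper78.W3

/-! ### residues modulo 9 -/

private theorem zm_six : ∀ a d : ZMod 9, (a * d = 1 ∨ a * d = 4 ∨ a * d = 7) → a ^ 6 = 1 ∧ d ^ 6 = 1 := by
  decide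

private theorem zm_m : ∀ a d : ZMod 9, (a * d = 1 ∨ a * d = 4 ∨ a * d = 7) →
    (d * a ^ 5 = 1 → d = a) ∧ (d * a ^ 5 = 7 → d * 4 = a) ∧
    (d * a ^ 5 ≠ 1 → d * a ^ 5 ≠ 7 → d * 16 = a) := by
  decide

private theorem zm_hyp (a d : ℤ) (h : (a * d) % 3 = 1) :
    ((a : ZMod 9) * d = 1 ∨ (a : ZMod 9) * d = 4 ∨ (a : ZMod 9) * d = 7) := by
  have h9 : (a * d) % 9 = 1 ∨ (a * d) % 9 = 4 ∨ (a * d) % 9 = 7 := by omega
  have key : ∀ r : ℤ, (a * d) % 9 = r % 9 → (a : ZMod 9) * d = (r : ZMod 9) := by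
    intro r hr
    have := (ZMod.intCast_eq_intCast_iff' (a * d) r 9).2 (by exact_mod_cast hr)
    push_cast at this
    exact this
  rcases h9 with h9 | h9 | h9
  · left; simpa using key 1 (by rw [h9]; norm_num)
  · right; left; simpa using key 4 (by rw [h9]; norm_num)
  · right; right; simpa using key 7 (by rw [h9]; norm_num)

private theorem dvd_of_zm (x : ℤ) (h : (x : ZMod 9) = 0) : (9 : ℤ) ∣ x := by
  have := (ZMod.intCast_zmod_eq_zero_iff_dvd x 9).1 h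
  exact_mod_cast this

private theorem emod_iff (x r : ℤ) (h0 : 0 ≤ r) (h9 : r < 9) : x % 9 = r ↔ (x : ZMod 9) = (r : ZMod 9) := by
  rw [ZMod.intCast_eq_intCast_iff']
  have : r % ((9 : ℕ) : ℤ) = r := Int.emod_eq_of_lt h0 (by exact_mod_cast h9)
  rw [this]
  norm_num

private theorem not_dvd_left (a d : ℤ) (h : (a * d) % 3 = 1) : ¬ (3 : ℤ) ∣ a := by
  rintro ⟨k, rfl⟩
  have : (3 * k * d) % 3 = 0 := by
    rw [mul_assoc]; exact Int.mul_emod_right 3 (k * d)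
  omega

private theorem not_dvd_right (a d : ℤ) (h : (a * d) % 3 = 1) : ¬ (3 : ℤ) ∣ d :=
  not_dvd_left d a (by rw [mul_comm]; exact h)

private theorem dvd_beta (a b d : ℤ) (h : (a * d) % 3 = 1) :
    (9 : ℤ) ∣ b - (((b * a ^ 5) % 9).toNat : ℕ) * a := by
  apply dvd_of_zm
  have h0 : 0 ≤ (b * a ^ 5) % 9 := Int.emod_nonneg _ (by norm_num)
  have h1 : ((((b * a ^ 5) % 9).toNat : ℕ) : ℤ) = (b * a ^ 5) % 9 := Int.toNat_of_nonneg h0
  have h2 : (((b * a ^ 5) % 9 : ℤ) : ZMod 9) = (b : ZMod 9) * (a : ZMod 9) ^ 5 := by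
    have := (ZMod.intCast_eq_intCast_iff' ((b * a ^ 5) % 9) (b * a ^ 5) 9).2 (by
      norm_num)
    rw [this]
    push_cast
    ring
  have h6 := (zm_six _ _ (zm_hyp a d h)).1
  have h3 : ((b - (((b * a ^ 5) % 9).toNat : ℕ) * a : ℤ) : ZMod 9)
      = (b : ZMod 9) - (b : ZMod 9) * (a : ZMod 9) ^ 5 * (a : ZMod 9) := by
    rw [h1]
    rw [Int.cast_sub, Int.cast_mul, h2]
  rw [h3]
  linear_combination (-(b : ZMod 9)) * h6

private theorem dvd_m (t : Tm) (h : (t.2.1 * t.2.2.2.2) % 3 = 1) :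
    (9 : ℤ) ∣ t.2.2.2.2 * 4 ^ mE t - t.2.1 := by
  obtain ⟨k, a, b, c, d⟩ := t
  simp only at h ⊢
  apply dvd_of_zm
  obtain ⟨h1, h2, h3⟩ := zm_m _ _ (zm_hyp a d h)
  have e1 := emod_iff (d * a ^ 5) 1 (by norm_num) (by norm_num)
  have e7 := emod_iff (d * a ^ 5) 7 (by norm_num) (by norm_num)
  push_cast at e1 e7
  unfold mE
  simp only
  by_cases c1 : (d * a ^ 5) % 9 = 1
  · rw [if_pos c1]
    have := h1 (by exact_mod_cast e1.1 c1)
    push_cast
    rw [mul_one, this, sub_self]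
  · rw [if_neg c1]
    by_cases c7 : (d * a ^ 5) % 9 = 7
    · rw [if_pos c7]
      have := h2 (by exact_mod_cast e7.1 c7)
      push_cast
      rw [this, sub_self]
    · rw [if_neg c7]
      have := h3 (fun h => c1 (e1.2 (by exact_mod_cast h))) (fun h => c7 (e7.2 (by exact_mod_cast h)))
      push_cast
      rw [this, sub_self]

/-! ### binomial theorem -/

private theorem onepow {R : Type} [Ring R] (x : R) (n N : ℕ) (h : n < N) :
    (1 + x) ^ n = ∑ k ∈ Finset.range N, (n.choose k) • x ^ k := by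
  have h1 : (1 + x) ^ n = ∑ k ∈ Finset.range (n + 1), (n.choose k) • x ^ k := by
    rw [add_comm 1 x, (Commute.one_right x).add_pow]
    refine Finset.sum_congr rfl fun k _ => ?_
    rw [one_pow, mul_one, nsmul_eq_mul]
    exact (Nat.cast_commute (n.choose k) (x ^ k)).eq.symm
  rw [h1]
  refine Finset.sum_subset ?_ ?_
  · intro k hk
    rw [Finset.mem_range] at hk ⊢
    omega
  · intro k _ hk
    rw [Finset.mem_range] at hk
    rw [Nat.choose_eq_zero_of_lt (by omega), zero_smul]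

/-- all the monomials of the expansion -/
private def big : Finset (ℕ × ℕ × ℕ) := Finset.range 3 ×ˢ Finset.range 9 ×ˢ Finset.range 9

private theorem expand {R : Type} [Ring R] (A X Y : R) (m β γ : ℕ) (hm : m < 3) (hβ : β < 9)
    (hγ : γ < 9) : (1 + A) ^ m * (1 + X) ^ β * (1 + Y) ^ γ =
    ∑ u ∈ big,
      (m.choose u.1 * β.choose u.2.1 * γ.choose u.2.2) • (A ^ u.1 * X ^ u.2.1 * Y ^ u.2.2) := by
  rw [onepow A m 3 hm, onepow X β 9 hβ, onepow Y γ 9 hγ, Finset.sum_mul_sum, Finset.sum_mul, big,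
    Finset.sum_product]
  refine Finset.sum_congr rfl fun i _ => ?_
  rw [Finset.sum_mul_sum, Finset.sum_product]
  refine Finset.sum_congr rfl fun j _ => ?_
  refine Finset.sum_congr rfl fun k _ => ?_
  simp only [nsmul_eq_mul, Nat.cast_mul]
  have c1 : Commute ((β.choose j : ℕ) : R) (A ^ i) := Nat.cast_commute _ _
  have c2 : Commute ((γ.choose k : ℕ) : R) (A ^ i * X ^ j) := Nat.cast_commute _ _
  calc ((m.choose i : ℕ) : R) * A ^ i * (((β.choose j : ℕ) : R) * X ^ j) *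
        (((γ.choose k : ℕ) : R) * Y ^ k)
      = ((m.choose i : ℕ) : R) * (A ^ i * ((β.choose j : ℕ) : R)) * X ^ j *
        (((γ.choose k : ℕ) : R) * Y ^ k) := by simp only [mul_assoc]
    _ = ((m.choose i : ℕ) : R) * (((β.choose j : ℕ) : R) * A ^ i) * X ^ j *
        (((γ.choose k : ℕ) : R) * Y ^ k) := by rw [c1.eq]
    _ = ((m.choose i : ℕ) : R) * ((β.choose j : ℕ) : R) * ((A ^ i * X ^ j) *
        ((γ.choose k : ℕ) : R)) * Y ^ k := by simp only [mul_assoc]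
    _ = ((m.choose i : ℕ) : R) * ((β.choose j : ℕ) : R) * (((γ.choose k : ℕ) : R) *
        (A ^ i * X ^ j)) * Y ^ k := by rw [c2.eq]
    _ = _ := by simp only [mul_assoc]

private theorem M5_sub : M5 ⊆ big := by
  intro t ht
  simp only [M5, big, Finset.mem_filter, Finset.mem_product, Finset.mem_range] at ht ⊢
  omega

private theorem weight_of (t : ℕ × ℕ × ℕ) (h1 : t ∈ big) (h2 : t ∉ M5) : 5 ≤ 2 * t.1 + t.2.1 + t.2.2 := by
  simp only [M5, big, Finset.mem_filter, Finset.mem_product, Finset.mem_range] at h1 h2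
  by_contra h
  exact h2 ⟨⟨by omega, by omega, by omega⟩, by omega⟩

/-! ### lowering -/

private theorem Lw_zero {q q' : ℕ} (k : ℤ) : Lw (0 : Module.End (ZMod 3) (Fn3 q q')) k := by
  intro d F _
  rw [LinearMap.zero_apply]
  exact Submodule.zero_mem _

section
variable {r s : ℕ} (hL : S3Low0)
include hL

private theorem Lw_pow (O : Module.End (ZMod 3) (Fn3 (3 ^ r) (3 ^ s))) (k : ℤ) (h : Lw O k) (n : ℕ) :
    Lw (O ^ n) (n * k) := by
  induction n with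
  | zero => simpa using (hL r s).2.2.2.2.2.1
  | succ n ih =>
    rw [pow_succ]
    have := (hL r s).1 _ _ _ _ ih h
    have e : ((n + 1 : ℕ) : ℤ) * k = n * k + k := by push_cast; ring
    rw [e]
    exact this

private theorem Lw_add (O O' : Module.End (ZMod 3) (Fn3 (3 ^ r) (3 ^ s))) (k : ℤ) (h : Lw O k)
    (h' : Lw O' k) : Lw (O + O') k := (hL r s).2.1 _ _ _ h h'

private theorem Lw_smul (O : Module.End (ZMod 3) (Fn3 (3 ^ r) (3 ^ s))) (c : ZMod 3) (k : ℤ)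
    (h : Lw O k) : Lw (c • O) k := (hL r s).2.2.1 _ _ _ h

private theorem Lw_sum {ι : Type} (S : Finset ι) (f : ι → Module.End (ZMod 3) (Fn3 (3 ^ r) (3 ^ s)))
    (k : ℤ) (h : ∀ i ∈ S, Lw (f i) k) : Lw (∑ i ∈ S, f i) k :=
  Finset.sum_induction f (fun O => Lw O k) (fun a b ha hb => Lw_add hL a b k ha hb) (Lw_zero k) h

private theorem Lw_mon (hNf : S3Nf) (i j k : ℕ) :
    Lw ((oD - 1) ^ i * dX ^ j * dY ^ k : Module.End (ZMod 3) (Fn3 (3 ^ r) (3 ^ s)))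
      (2 * i + j + k : ℤ) := by
  have h1 := Lw_pow hL (r := r) (s := s) _ _ (hNf r s).1 i
  have h2 := Lw_pow hL (r := r) (s := s) _ _ (hL r s).2.2.2.2.2.2.1 j
  have h3 := Lw_pow hL (r := r) (s := s) _ _ (hL r s).2.2.2.2.2.2.2.1 k
  have h4 := (hL r s).1 _ _ _ _ ((hL r s).1 _ _ _ _ h1 h2) h3
  have e : (2 * i + j + k : ℤ) = (i : ℤ) * 2 + j * 1 + k * 1 := by ring
  rw [e]
  exact h4

omit hL in
private theorem alg (c : ZMod 3) (P Q S1 S2 : Module.End (ZMod 3) (Fn3 (3 ^ r) (3 ^ s)))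
    (h : Q = S1 + S2) : c • P - c • S2 = c • ((P - Q) + S1) := by
  have e : (P - Q) + S1 = P - S2 := by rw [h]; abel
  rw [e]
  exact (smul_sub c P S2).symm

omit hL in
private theorem alg2 (A B C D T S : Module.End (ZMod 3) (Fn3 (3 ^ r) (3 ^ s)))
    (e1 : T = A + B) (e2 : S = C + D) (h : Lw ((A - C) + (B - D)) 5) : Lw (T - S) 5 := by
  have e3 : T - S = (A - C) + (B - D) := by rw [e1, e2]; abel
  rw [e3]
  exact h

/-- one term of the list -/
private theorem term (hNf : S3Nf) (t : Tm) (h : (t.2.1 * t.2.2.2.2) % 3 = 1) :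
    Lw ((((t.1 : ℤ) : ZMod 3) • op3 t.2.1 t.2.2.1 t.2.2.2.1 t.2.2.2.2 :
      Module.End (ZMod 3) (Fn3 (3 ^ r) (3 ^ s))) - ∑ u ∈ M5,
        ((t.1 * ((mE t).choose u.1 * (bE t).choose u.2.1 * (gE t).choose u.2.2 : ℕ) : ℤ) : ZMod 3) •
        ((oD - 1) ^ u.1 * dX ^ u.2.1 * dY ^ u.2.2 : Module.End (ZMod 3) (Fn3 (3 ^ r) (3 ^ s)))) 5 := by
  have hm : mE t < 3 := by
    unfold mE
    split_ifs <;> norm_num
  have hb : bE t < 9 := by
    have h1 : (t.2.2.1 * t.2.1 ^ 5) % 9 < 9 := Int.emod_lt_of_pos _ (by norm_num)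
    have h2 : 0 ≤ (t.2.2.1 * t.2.1 ^ 5) % 9 := Int.emod_nonneg _ (by norm_num)
    unfold bE
    omega
  have hg : gE t < 9 := by
    have h1 : (t.2.2.2.1 * t.2.2.2.2 ^ 5) % 9 < 9 := Int.emod_lt_of_pos _ (by norm_num)
    have h2 : 0 ≤ (t.2.2.2.1 * t.2.2.2.2 ^ 5) % 9 := Int.emod_nonneg _ (by norm_num)
    unfold gE
    omega
  have hnf := (hNf r s).2 t.2.1 t.2.2.1 t.2.2.2.1 t.2.2.2.2 (mE t) (bE t) (gE t)
    (not_dvd_left _ _ h) (not_dvd_right _ _ h) (dvd_m t h) (dvd_beta _ _ _ h)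
    (dvd_beta _ _ t.2.1 (by rw [mul_comm]; exact h))
  have hnf5 := (hL r s).2.2.2.1 _ 7 5 (by norm_num) hnf
  have hexp := expand (oD - 1 : Module.End (ZMod 3) (Fn3 (3 ^ r) (3 ^ s))) dX dY (mE t) (bE t) (gE t) hm hb hg
  rw [add_sub_cancel] at hexp
  have hsplit : (∑ u ∈ big, ((mE t).choose u.1 * (bE t).choose u.2.1 * (gE t).choose u.2.2) •
      ((oD - 1) ^ u.1 * dX ^ u.2.1 * dY ^ u.2.2 : Module.End (ZMod 3) (Fn3 (3 ^ r) (3 ^ s)))) =
      (∑ u ∈ big \ M5, ((mE t).choose u.1 * (bE t).choose u.2.1 * (gE t).choose u.2.2) •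
      ((oD - 1) ^ u.1 * dX ^ u.2.1 * dY ^ u.2.2 : Module.End (ZMod 3) (Fn3 (3 ^ r) (3 ^ s)))) +
      ∑ u ∈ M5, ((mE t).choose u.1 * (bE t).choose u.2.1 * (gE t).choose u.2.2) •
      ((oD - 1) ^ u.1 * dX ^ u.2.1 * dY ^ u.2.2 : Module.End (ZMod 3) (Fn3 (3 ^ r) (3 ^ s))) :=
    (Finset.sum_sdiff M5_sub).symm
  have hrest : Lw (∑ u ∈ big \ M5, ((mE t).choose u.1 * (bE t).choose u.2.1 * (gE t).choose u.2.2) •
      ((oD - 1) ^ u.1 * dX ^ u.2.1 * dY ^ u.2.2 : Module.End (ZMod 3) (Fn3 (3 ^ r) (3 ^ s)))) 5 := by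
    refine Lw_sum hL _ _ _ fun u hu => ?_
    rw [Finset.mem_sdiff] at hu
    have hw := weight_of u hu.1 hu.2
    rw [← Nat.cast_smul_eq_nsmul (ZMod 3)]
    refine Lw_smul hL _ _ _ ((hL r s).2.2.2.1 _ _ 5 ?_ (Lw_mon hL hNf u.1 u.2.1 u.2.2))
    exact_mod_cast hw
  have hM : (∑ u ∈ M5,
        ((t.1 * ((mE t).choose u.1 * (bE t).choose u.2.1 * (gE t).choose u.2.2 : ℕ) : ℤ) : ZMod 3) •
        ((oD - 1) ^ u.1 * dX ^ u.2.1 * dY ^ u.2.2 : Module.End (ZMod 3) (Fn3 (3 ^ r) (3 ^ s)))) =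
      ((t.1 : ℤ) : ZMod 3) • ∑ u ∈ M5, ((mE t).choose u.1 * (bE t).choose u.2.1 * (gE t).choose u.2.2) •
      ((oD - 1) ^ u.1 * dX ^ u.2.1 * dY ^ u.2.2 : Module.End (ZMod 3) (Fn3 (3 ^ r) (3 ^ s))) := by
    rw [Finset.smul_sum]
    refine Finset.sum_congr rfl fun u _ => ?_
    rw [← Nat.cast_smul_eq_nsmul (ZMod 3), smul_smul]
    congr 1
    push_cast
    ring
  rw [hM]
  rw [alg _ _ _ _ _ (hexp.trans hsplit)]
  exact Lw_smul hL _ _ _ (Lw_add hL _ _ _ hnf5 hrest)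

end

theorem hExp (hLow0 : S3Low0) (hNf : S3Nf) : S3Exp := by
  intro r s L
  induction L with
  | nil =>
    intro _
    have e : (opL [] : Module.End (ZMod 3) (Fn3 (3 ^ r) (3 ^ s))) - ∑ t ∈ M5,
        ((sS [] t.1 t.2.1 t.2.2 : ℤ) : ZMod 3) •
        ((oD - 1) ^ t.1 * dX ^ t.2.1 * dY ^ t.2.2 : Module.End (ZMod 3) (Fn3 (3 ^ r) (3 ^ s))) = 0 := by
      simp [opL, sS]
    rw [e]
    exact Lw_zero 5
  | cons t L ih =>
    intro h
    have h1 := ih (fun u hu => h u (List.mem_cons_of_mem t hu))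
    have h2 := term hLow0 (r := r) (s := s) hNf t (h t List.mem_cons_self)
    have h3 := Lw_add hLow0 _ _ _ h2 h1
    have e1 : (opL (t :: L) : Module.End (ZMod 3) (Fn3 (3 ^ r) (3 ^ s))) =
        ((t.1 : ℤ) : ZMod 3) • op3 t.2.1 t.2.2.1 t.2.2.2.1 t.2.2.2.2 + opL L := by
      simp [opL]
    have e2 : (∑ u ∈ M5, ((sS (t :: L) u.1 u.2.1 u.2.2 : ℤ) : ZMod 3) •
        ((oD - 1) ^ u.1 * dX ^ u.2.1 * dY ^ u.2.2 : Module.End (ZMod 3) (Fn3 (3 ^ r) (3 ^ s)))) =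
        (∑ u ∈ M5,
        ((t.1 * ((mE t).choose u.1 * (bE t).choose u.2.1 * (gE t).choose u.2.2 : ℕ) : ℤ) : ZMod 3) •
        ((oD - 1) ^ u.1 * dX ^ u.2.1 * dY ^ u.2.2 : Module.End (ZMod 3) (Fn3 (3 ^ r) (3 ^ s)))) +
        ∑ u ∈ M5, ((sS L u.1 u.2.1 u.2.2 : ℤ) : ZMod 3) •
        ((oD - 1) ^ u.1 * dX ^ u.2.1 * dY ^ u.2.2 : Module.End (ZMod 3) (Fn3 (3 ^ r) (3 ^ s))) := by
      rw [← Finset.sum_add_distrib]
      refine Finset.sum_congr rfl fun u _ => ?_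
      rw [← add_smul]
      congr 1
      simp only [sS, List.map_cons, List.sum_cons]
      push_cast
      ring
    generalize M5 = SS at *
    refine alg2 _ _ _ _ _ _ e1 e2 ?_
    exact h3

end Pool.Agent.Helper24.W3
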