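import Pool.Agent.Helper78.W3.StC

/-!
# Project W3 (MP_3c9520_nt), module UBof: the upper bound UB for level 3^n
-/

set_option autoImplicit false

open Pool.Agent.Helper14.CV (Homog EqC act Tl StFar StFex)
open Pool.Agent.Helper14.W3
open Pool.Agent.Helper78.W3

namespace Pool.Agent.Helper24.W3

/-- The function `edge3` of the transported potential as a linear map. -/
private noncomputable def Lm (μ k r s : ℕ) (u1 u2 v1 v2 : ℤ) :
    (ℤ → ℤ → ℂ) →ₗ[ℂ] (ZMod (3 ^ r) → ZMod (3 ^ s) → ℂ) where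
  toFun G x y := edge3 μ u1 u2 v1 v2 (act 1 0 0 (3 ^ k) G) x y
  map_add' G H := by
    funext x y
    simp only [edge3, act, Pi.add_apply]
    ring
  map_smul' c G := by
    funext x y
    simp only [edge3, act, Pi.smul_apply, smul_eq_mul, RingHom.id_apply]
    ring

private noncomputable def LmH (k : ℕ) :
    (ℤ → ℤ → ℂ) →ₗ[ℂ] (ZMod (3 ^ (k - 1)) → ZMod (3 ^ (k - 1)) → ℂ) where
  toFun G := hE k (act 1 0 0 (3 ^ k) G)
  map_add' G H := by
    funext x y
    simp only [hE, edge3, act, Pi.add_apply]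
    ring
  map_smul' c G := by
    funext x y
    simp only [hE, edge3, act, Pi.smul_apply, smul_eq_mul, RingHom.id_apply]
    ring

private noncomputable def LmL (k : ℕ) :
    (ℤ → ℤ → ℂ) →ₗ[ℂ] (ZMod (3 ^ (k - 1)) → ZMod (3 ^ (k - 1)) → ℂ) where
  toFun G := lE k (act 1 0 0 (3 ^ k) G)
  map_add' G H := by
    funext x y
    simp only [lE, edge3, act, Pi.add_apply]
    ring
  map_smul' c G := by
    funext x y
    simp only [lE, edge3, act, Pi.smul_apply, smul_eq_mul, RingHom.id_apply]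
    ring

private theorem build (n D : ℕ) {W : Type} [AddCommGroup W] [Module ℂ W] [Module.Finite ℂ W]
    (hW : Module.finrank ℂ W ≤ D) (L : NS3 n →ₗ[ℂ] W)
    (hinj : ∀ G : NS3 n, L G = 0 → EqC (G : ℤ → ℤ → ℂ) 0) :
    ∃ Θ : NS3 n →ₗ[ℂ] (Fin D → ℂ), ∀ G : NS3 n, Θ G = 0 → EqC (G : ℤ → ℤ → ℂ) 0 := by
  have h0 : Module.finrank ℂ W ≤ Module.finrank ℂ (Fin D → ℂ) := by simpa using hW
  obtain ⟨e, he⟩ := finrank_le_iff_exists_linearMap.1 h0
  refine ⟨e.comp L, fun G hG => hinj G ?_⟩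
  apply he
  rw [map_zero]
  exact hG

theorem hUBof : S3UBof := by
  intro hBal hE1 hO1 hDimE hKerO n hn
  rcases Nat.even_or_odd' n with ⟨k, hk | hk⟩
  · -- even exponent
    subst hk
    have hk2 : 2 ≤ k := by omega
    have key : ∀ G ∈ NS3 (2 * k), LmH k G ∈ antiE3 k ∧ LmL k G ∈ antiE3 k ∧
        (LmH k G = 0 → LmL k G = 0 → EqC G 0) := by
      intro G hG
      have hN : NewSym3 (2 * k) G := hG
      have hB := (hBal k G (by omega)).1 hN
      obtain ⟨a1, a2, a3⟩ := hE1 k _ hk2 hB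
      refine ⟨a1, a2, fun h0 h0' => ?_⟩
      have h3 := a3 (fun x y => congrFun (congrFun h0 x) y) (fun x y => congrFun (congrFun h0' x) y)
      exact (hBal k G (by omega)).2.2 hN.1.1 h3
    have hd : dd3 (2 * k) = 2 * 9 ^ (k - 2) := by
      unfold dd3
      rw [if_neg (by omega), if_neg (by omega), if_pos (by omega)]
      congr 2
      omega
    rw [hd]
    let L1 : NS3 (2 * k) →ₗ[ℂ] antiE3 k :=
      ((LmH k).comp (NS3 (2 * k)).subtype).codRestrict (antiE3 k) (fun G => (key G G.2).1)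
    let L2 : NS3 (2 * k) →ₗ[ℂ] antiE3 k :=
      ((LmL k).comp (NS3 (2 * k)).subtype).codRestrict (antiE3 k) (fun G => (key G G.2).2.1)
    refine build (2 * k) _ ?_ (L1.prod L2) (fun G hG => ?_)
    · rw [Module.finrank_prod, hDimE k hk2]
      omega
    · have h1 : L1 G = 0 := congrArg Prod.fst hG
      have h2 : L2 G = 0 := congrArg Prod.snd hG
      exact (key G G.2).2.2 (congrArg Subtype.val h1) (congrArg Subtype.val h2)
  · -- odd exponent
    subst hk
    have hk1 : 1 ≤ k := by omega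
    have key : ∀ G ∈ NS3 (2 * k + 1), Lm 0 k k k 1 0 0 1 G ∈ antiO3 k ⊓ LinearMap.ker (Rh k) ∧
        (Lm 0 k k k 1 0 0 1 G = 0 → EqC G 0) := by
      intro G hG
      have hN : NewSym3 (2 * k + 1) G := hG
      have hB := (hBal k G hk1).2.1 hN
      obtain ⟨a1, a2, a3⟩ := hO1 k _ hk1 hB
      refine ⟨⟨a1, LinearMap.mem_ker.2 a2⟩, fun h0 => ?_⟩
      have h3 := a3 (fun x y => congrFun (congrFun h0 x) y)
      exact (hBal k G hk1).2.2 hN.1.1 h3
    have hfin : Module.finrank ℂ ↥(antiO3 k ⊓ LinearMap.ker (Rh k)) ≤ dd3 (2 * k + 1) := by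
      rcases Nat.lt_or_ge k 2 with h3 | h3
      · have hk' : k = 1 := by omega
        subst hk'
        have hd : dd3 (2 * 1 + 1) = 1 := by simp [dd3]
        rw [hd]
        exact hKerO.2
      · have hd : dd3 (2 * k + 1) = 2 * 3 ^ (k - 2) * (3 ^ (k - 1) + 1) := by
          unfold dd3
          rw [if_neg (by omega), if_neg (by omega), if_neg (by omega)]
          have : (2 * k + 1) / 2 = k := by omega
          rw [this]
        rw [hd]
        have h4 := hKerO.1 k h3
        have h5 : (3 : ℕ) ^ (k - 1) = 3 * 3 ^ (k - 2) := by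
          rw [← pow_succ']
          congr 1
          omega
        have h6 : 2 * (3 ^ (k - 1) * (3 ^ (k - 1) + 1)) = 3 * (2 * 3 ^ (k - 2) * (3 ^ (k - 1) + 1)) := by
          rw [h5]
          ring
        rw [h6] at h4
        exact le_of_eq (Nat.eq_of_mul_eq_mul_left (by norm_num) h4)
    let L1 : NS3 (2 * k + 1) →ₗ[ℂ] ↥(antiO3 k ⊓ LinearMap.ker (Rh k)) :=
      ((Lm 0 k k k 1 0 0 1).comp (NS3 (2 * k + 1)).subtype).codRestrict
        (antiO3 k ⊓ LinearMap.ker (Rh k)) (fun G => (key G G.2).1)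
    refine build (2 * k + 1) _ hfin L1 (fun G hG => ?_)
    exact (key G G.2).2 (congrArg Subtype.val hG)

end Pool.Agent.Helper24.W3
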